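import Mathlib
import Pool.Agent.Helper523_NSW.FerG

set_option autoImplicit false

/-!
# The number of prime factors of `⌊t n ^ n⌋ + 1` for almost every amplitude `t`

A prime of the form `n ^ n + 1` with `n > 1` has `n = 2 ^ (2 ^ k)`.  For these `n` all prime factors of
`n ^ n + 1` are larger than `2 n log₂ n`.  For a real `t > 0` let `N t n = ⌊t n ^ n⌋ + 1`, and let `ω t n` be
the number of the primes larger than `2 n log₂ n` that divide `N t n`.  We prove that for almost every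
`t > 0` and all large `k`, with `n = 2 ^ (2 ^ k)`, the number `ω t n` is `(k + 2 ^ k) log 2 = log n + k log 2`
up to an error of at most `8 ((k + 2 ^ k) log (k + 1)) ^ (1/2)`.  In particular `N t n` is composite.
-/

namespace Pool.Agent.Results.MP_a70bdc_nt.SelfPowersAmplitude

open Filter Topology MeasureTheory

/-- The number `⌊t n ^ n⌋ + 1`. -/
noncomputable def N (t : ℝ) (n : ℕ) : ℕ := ⌊t * (n : ℝ) ^ n⌋₊ + 1

/-- The number of the primes larger than `2 n log₂ n` that divide `N t n`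
(`Nat.log 2 n` is the integer part of the logarithm of `n` to the base `2`). -/
noncomputable def ω (t : ℝ) (n : ℕ) : ℕ :=
  ((N t n).primeFactors.filter (fun q => 2 * n * Nat.log 2 n < q)).card

lemma N_one (n : ℕ) : N 1 n = n ^ n + 1 := by
  unfold N
  rw [one_mul, ← Nat.cast_pow, Nat.floor_natCast]

lemma pow_eq (k : ℕ) : (2 ^ (2 ^ k)) ^ (2 ^ (2 ^ k)) = 2 ^ (2 ^ (k + 2 ^ k)) := by
  rw [← pow_mul, pow_add]

lemma thr_eq (k : ℕ) : 2 * 2 ^ (2 ^ k) * Nat.log 2 (2 ^ (2 ^ k)) = 2 ^ (k + 2 ^ k + 1) := by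
  rw [Nat.log_pow one_lt_two, pow_succ, pow_add]
  ring

/-- the prime factors of the Fermat numbers -/
lemma lt_of_dvd {m q : ℕ} (hq : q.Prime) (h : q ∣ 2 ^ (2 ^ m) + 1) : 2 ^ (m + 1) < q := by
  have h2 : q ≠ 2 := by
    rintro rfl
    have h3 : 2 ∣ 2 ^ (2 ^ m) := dvd_pow_self 2 (by positivity)
    omega
  haveI : Fact q.Prime := ⟨hq⟩
  have hq3 : 2 < q := lt_of_le_of_ne hq.two_le (Ne.symm h2)
  have h1 : ((2 : ZMod q)) ^ (2 ^ m) = -1 := by
    have h3 : ((2 ^ (2 ^ m) + 1 : ℕ) : ZMod q) = 0 := (ZMod.natCast_eq_zero_iff _ _).2 h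
    push_cast at h3
    exact eq_neg_of_add_eq_zero_left h3
  have hne : (-1 : ZMod q) ≠ 1 := by
    haveI : Fact (2 < q) := ⟨hq3⟩
    exact ZMod.neg_one_ne_one
  have hord : orderOf (2 : ZMod q) = 2 ^ (m + 1) := by
    refine orderOf_eq_prime_pow (by rw [h1]; exact hne) ?_
    rw [pow_succ, pow_mul, h1]
    norm_num
  have hb0 : (2 : ZMod q) ≠ 0 := by
    intro h0
    rw [h0, zero_pow (by positivity)] at h1
    have : (1 : ZMod q) = 0 := by linear_combination h1
    exact one_ne_zero this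
  have hd := ZMod.orderOf_dvd_card_sub_one hb0
  rw [hord] at hd
  have := Nat.le_of_dvd (by omega) hd
  omega

lemma ω_eq (t : ℝ) (k : ℕ) : ω t (2 ^ (2 ^ k)) =
    Pool.Agent.Helper523_NSW.Fer.cnt (k + 2 ^ k) (⌊t * ((2 : ℕ) : ℝ) ^ (2 ^ (k + 2 ^ k))⌋₊ + 1) := by
  unfold ω N Pool.Agent.Helper523_NSW.Fer.cnt
  rw [thr_eq]
  have e : (((2 ^ (2 ^ k) : ℕ) : ℝ)) ^ (2 ^ (2 ^ k)) = ((2 : ℕ) : ℝ) ^ (2 ^ (k + 2 ^ k)) := by
    rw [← Nat.cast_pow, ← Nat.cast_pow, pow_eq]
  rw [e]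

/-- For `n = 2 ^ (2 ^ k)` the number `ω 1 n` counts all prime factors of `n ^ n + 1`.  For almost every
`t > 0` and all large `k` the number `ω t n` differs from `(k + 2 ^ k) log 2` by at most
`8 ((k + 2 ^ k) log (k + 1)) ^ (1/2)`, and `N t n` is composite. -/
theorem result :
    (∀ k n : ℕ, n = 2 ^ (2 ^ k) → N 1 n = n ^ n + 1 ∧ ω 1 n = (n ^ n + 1).primeFactors.card) ∧
    (∀ᵐ t : ℝ, 0 < t → ∀ᶠ k : ℕ in atTop, ∀ n : ℕ, n = 2 ^ (2 ^ k) →
      |(ω t n : ℝ) - ((k : ℝ) + 2 ^ k) * Real.log 2| ≤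
        8 * Real.sqrt (((k : ℝ) + 2 ^ k) * Real.log (k + 1)) ∧
      ¬ (N t n).Prime) := by
  refine ⟨?_, ?_⟩
  · rintro k n rfl
    refine ⟨N_one _, ?_⟩
    unfold ω
    rw [N_one, thr_eq, pow_eq]
    congr 1
    refine Finset.filter_true_of_mem fun q hq => ?_
    rw [Nat.mem_primeFactors] at hq
    exact lt_of_dvd hq.1 hq.2.1
  · filter_upwards [Pool.Agent.Helper523_NSW.Fer.seq_law (fun k => k + 2 ^ k)
      (fun _ => Nat.le_add_right _ _)] with t ht h0
    filter_upwards [ht h0 2 le_rfl, eventually_ge_atTop 20000] with k hk hk2 n hn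
    subst hn
    rw [← ω_eq] at hk
    have hk2' : (20000 : ℝ) ≤ k := by exact_mod_cast hk2
    have hL : 0 ≤ Real.log ((k : ℝ) + 1) := Real.log_nonneg (by linarith)
    have hcast : (((k + 2 ^ k : ℕ) : ℝ)) = (k : ℝ) + 2 ^ k := by push_cast; ring
    simp only [hcast] at hk
    have h1 : |(ω t (2 ^ (2 ^ k)) : ℝ) - ((k : ℝ) + 2 ^ k) * Real.log 2| ≤
        8 * Real.sqrt (((k : ℝ) + 2 ^ k) * Real.log (k + 1)) := by
      refine hk.trans (le_of_eq ?_)
      rw [mul_comm ((k : ℝ) + 2 ^ k), Real.sqrt_mul hL]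
      ring
    refine ⟨h1, fun hp => ?_⟩
    have h4 : ω t (2 ^ (2 ^ k)) ≤ 1 := by
      unfold ω
      rw [hp.primeFactors]
      exact (Finset.card_filter_le _ _).trans (by rw [Finset.card_singleton])
    have h4' : (ω t (2 ^ (2 ^ k)) : ℝ) ≤ 1 := by exact_mod_cast h4
    -- the main term dominates
    have h5 : k < 2 ^ k := Nat.lt_two_pow_self
    have h5' : (k : ℝ) < 2 ^ k := by exact_mod_cast h5
    set A : ℝ := (k : ℝ) + 2 ^ k with hA
    have hA0 : 40000 ≤ A := by rw [hA]; linarith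
    have hw := Real.sq_sqrt (by linarith : (0 : ℝ) ≤ A)
    have h6 : 8 * Real.sqrt (Real.log (k + 1)) ≤ Real.sqrt k :=
      Pool.Agent.Helper523_NSW.Fer.l_le k hk2
    have h7 : 8 * Real.sqrt (A * Real.log (k + 1)) ≤ Real.sqrt A * Real.sqrt k := by
      rw [Real.sqrt_mul (by linarith)]
      have := mul_le_mul_of_nonneg_left h6 (Real.sqrt_nonneg A)
      linarith
    -- `√A √k ≤ A / 2`
    have h8 : Real.sqrt A * Real.sqrt k ≤ A / 2 := by
      rw [← Real.sqrt_mul (by linarith)]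
      rw [Real.sqrt_le_left (by linarith)]
      have h9 : 4 * (k : ℝ) ≤ A := by
        have h10 : 3 * k ≤ 2 ^ k := by
          obtain ⟨j, rfl⟩ := Nat.exists_eq_add_of_le (show 2 ≤ k by omega)
          have h11 : 2 + j ≤ 2 ^ (1 + j) := by
            have := @Nat.lt_two_pow_self (1 + j)
            omega
          rw [show 2 + j = (1 + j) + 1 by ring, pow_succ]
          have h12 : 1 + j < 2 ^ (1 + j) := Nat.lt_two_pow_self
          have h13 : (1 + j) + 2 ≤ 2 ^ (1 + j) := by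
            obtain ⟨i, rfl⟩ := Nat.exists_eq_add_of_le (show 2 ≤ j by omega)
            have h14 : 2 + i < 2 ^ (2 + i) := Nat.lt_two_pow_self
            have h15 : 1 + (2 + i) = (2 + i) + 1 := by ring
            rw [h15, pow_succ]
            omega
          have h16 : 2 * (1 + j) ≤ 2 ^ (1 + j) := by
            obtain ⟨i, rfl⟩ := Nat.exists_eq_add_of_le (show 2 ≤ j by omega)
            have h14 : 2 + i < 2 ^ (2 + i) := Nat.lt_two_pow_self
            have h15 : 1 + (2 + i) = (2 + i) + 1 := by ring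
            rw [h15, pow_succ]
            omega
          omega
        have h10' : (3 : ℝ) * k ≤ 2 ^ k := by exact_mod_cast h10
        rw [hA]; linarith
      nlinarith
    have hl2 : 6 / 10 < Real.log 2 := by linarith [Real.log_two_gt_d9]
    have h17 := (abs_le.1 h1).1
    nlinarith

end Pool.Agent.Results.MP_a70bdc_nt.SelfPowersAmplitude
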